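import Mathlib
import Pool.Agent.H759R2.Kad.Props
import Pool.Agent.H759R2.Kad.Props2

open scoped ComplexOrder InnerProductSpace ComplexConjugate
open Finset

noncomputable section

namespace H759R2.Kad

universe u v

namespace Defect

theorem norm_le_of_num {K : Type v} [NormedAddCommGroup K] [InnerProductSpace ℂ K]
    [CompleteSpace K] (T : K →L[ℂ] K) (hT : IsSelfAdjoint T) (M : ℝ) (hM : 0 ≤ M)
    (h : ∀ θ : K, ‖θ‖ = 1 → ‖⟪θ, T θ⟫_ℂ‖ ≤ M) : ‖T‖ ≤ M := by
  rw [ContinuousLinearMap.norm_eq_iSup_rayleighQuotient T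
    (ContinuousLinearMap.isSelfAdjoint_iff_isSymmetric.1 hT)]
  refine ciSup_le fun x => ?_
  by_cases hx : x = 0
  · subst hx
    simpa using hM
  have hx' : ‖x‖ ≠ 0 := norm_ne_zero_iff.2 hx
  have hc : ((‖x‖⁻¹ : ℝ) : ℂ) ≠ 0 := by
    simpa using hx
  rw [← T.rayleigh_smul x hc]
  set θ : K := ((‖x‖⁻¹ : ℝ) : ℂ) • x with hθ
  have h1 : ‖θ‖ = 1 := by
    rw [hθ, norm_smul, Complex.norm_real, norm_inv, norm_norm]
    field_simp
  rw [ContinuousLinearMap.rayleighQuotient, h1, one_pow, div_one,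
    ContinuousLinearMap.reApplyInnerSelf_apply]
  calc |RCLike.re ⟪T θ, θ⟫_ℂ| ≤ ‖⟪T θ, θ⟫_ℂ‖ := RCLike.abs_re_le_norm _
    _ = ‖⟪θ, T θ⟫_ℂ‖ := norm_inner_symm _ _
    _ ≤ M := h θ h1

theorem norm_unitary_le {B : Type u} [CStarAlgebra B] {x : B} (hx : x ∈ unitary B) : ‖x‖ ≤ 1 := by
  rcases subsingleton_or_nontrivial B with h | h
  · rw [Subsingleton.elim x 0, norm_zero]
    exact zero_le_one
  · exact (CStarRing.norm_of_mem_unitary hx).le

/-- two operators inverse to each other and of norm at most `c` are almost isometric -/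
theorem almost_isom {K : Type v} [NormedAddCommGroup K] [InnerProductSpace ℂ K]
    [CompleteSpace K] (T S : K →L[ℂ] K) (hST : S * T = 1) (c : ℝ) (hc : 1 ≤ c)
    (hT : ‖T‖ ≤ c) (hS : ‖S‖ ≤ c) : ‖1 - star T * T‖ ≤ c ^ 2 - 1 := by
  refine norm_le_of_num _ ?_ _ (by nlinarith) fun θ hθ => ?_
  · rw [IsSelfAdjoint, star_sub, star_one, star_mul, star_star]
  have h1 : ‖T θ‖ ≤ c := by
    have := T.le_opNorm θ
    rw [hθ, mul_one] at this
    exact this.trans hT
  have h2 : 1 ≤ c * ‖T θ‖ := by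
    have e : S (T θ) = θ := by
      have := congrArg (fun R : K →L[ℂ] K => R θ) hST
      simpa using this
    have := S.le_opNorm (T θ)
    rw [e, hθ] at this
    exact this.trans (mul_le_mul_of_nonneg_right hS (norm_nonneg _))
  have h3 : ⟪θ, (1 - star T * T) θ⟫_ℂ = ((1 - ‖T θ‖ ^ 2 : ℝ) : ℂ) := by
    have e1 : (1 - star T * T) θ = θ - (star T) (T θ) := rfl
    rw [e1, inner_sub_right, inner_self_eq_norm_sq_to_K, hθ, ContinuousLinearMap.star_eq_adjoint,
      ContinuousLinearMap.adjoint_inner_right, inner_self_eq_norm_sq_to_K]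
    push_cast
    simp
  rw [h3, Complex.norm_real, Real.norm_eq_abs, abs_le]
  have h4 : 0 ≤ ‖T θ‖ := norm_nonneg _
  have hc2 : 0 < c ^ 2 := by positivity
  have h5 : 1 ≤ c ^ 2 * ‖T θ‖ ^ 2 := by nlinarith
  have h6 : ‖T θ‖ ^ 2 ≤ c ^ 2 := by nlinarith
  constructor
  · linarith
  · have h7 : c ^ 2 * (2 - c ^ 2) ≤ 1 := by nlinarith [sq_nonneg (c ^ 2 - 1)]
    have h8 : 2 - c ^ 2 ≤ ‖T θ‖ ^ 2 := by
      by_contra hcon
      push Not at hcon
      have : c ^ 2 * ‖T θ‖ ^ 2 < c ^ 2 * (2 - c ^ 2) := mul_lt_mul_of_pos_left hcon hc2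
      linarith
    linarith

end Defect

theorem prove2_defect : T2_defect.{u, v} := by
  intro B _ _ _ K _ _ _ w hw δ hδ hδ' hb X
  have key : ∀ x ∈ unitary B, ‖dmap w x‖ ≤ 3 * δ := by
    intro x hx
    have hx' : star x ∈ unitary B := Unitary.star_mem hx
    obtain ⟨hs1, hs2⟩ := id hx
    have hTS : w x * w (star x) = 1 := by rw [← hw.mul, hs2, hw.one]
    have hST : w (star x) * w x = 1 := by rw [← hw.mul, hs1, hw.one]
    have hT : ‖w x‖ ≤ 1 + δ := (hb x).trans (by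
      have := Defect.norm_unitary_le hx
      nlinarith)
    have hS : ‖w (star x)‖ ≤ 1 + δ := (hb _).trans (by
      have := Defect.norm_unitary_le hx'
      nlinarith)
    have h1 := Defect.almost_isom (w x) (w (star x)) hST (1 + δ) (by linarith) hT hS
    have e : dmap w x = star (w (star x)) * (1 - star (w x) * w x) := by
      have e1 : star (w (star x)) * star (w x) = 1 := by rw [← star_mul, hTS, star_one]
      rw [mul_sub, mul_one, ← mul_assoc, e1, one_mul]
      rfl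
    rw [e]
    calc ‖star (w (star x)) * (1 - star (w x) * w x)‖
        ≤ ‖star (w (star x))‖ * ‖1 - star (w x) * w x‖ := norm_mul_le _ _
      _ ≤ (1 + δ) * ((1 + δ) ^ 2 - 1) := by
          rw [norm_star]
          exact mul_le_mul hS h1 (norm_nonneg _) (by linarith)
      _ ≤ 3 * δ := by nlinarith [mul_nonneg hδ hδ, mul_nonneg (mul_nonneg hδ hδ) hδ]
  obtain ⟨u, c, hX, hc⟩ := CStarAlgebra.exists_sum_four_unitary X
  calc ‖dmap w X‖ = ‖∑ i, c i • dmap w (u i : B)‖ := by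
        conv_lhs => rw [hX]
        rw [map_sum]
        simp_rw [map_smul]
    _ ≤ ∑ i, ‖c i • dmap w (u i : B)‖ := norm_sum_le _ _
    _ ≤ ∑ i : Fin 4, ‖X‖ / 2 * (3 * δ) := by
        refine Finset.sum_le_sum fun i _ => ?_
        rw [norm_smul]
        exact mul_le_mul (hc i) (key _ (u i).2) (norm_nonneg _) (by positivity)
    _ = 6 * δ * ‖X‖ := by
        simp
        ring

end H759R2.Kad
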